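import Pool.Agent.H242R3.ES.Stmts

set_option autoImplicit false

/-! Project H242-ES, task C1: subsets of proper faces are faces. -/

namespace H51R3.ES

open Pool.Agent.H242R3.ES
open scoped Classical

theorem t : TaskC1 := by
  intro ι E _ _ _ _ V hV S T hS hSu hTS
  have hli := hV.simp S hS hSu
  obtain ⟨l, hl0, hl⟩ := hS
  -- the functional on the span of the face
  obtain ⟨f, hf⟩ : ∃ f : E →ₗ[ℝ] ℝ, ∀ i ∈ S, f (V i) = if i ∈ T then 0 else 1 := by
    obtain ⟨f, hf⟩ := LinearMap.exists_extend
      ((Module.Basis.span hli).constr ℝ (fun i : S => if (i : ι) ∈ T then (0 : ℝ) else 1))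
    refine ⟨f, fun i hi => ?_⟩
    have h1 := LinearMap.congr_fun hf ((Module.Basis.span hli) ⟨i, hi⟩)
    rw [Module.Basis.constr_basis, LinearMap.comp_apply, Submodule.subtype_apply,
      Module.Basis.span_apply] at h1
    exact h1
  set N : ℝ := 1 + ∑ i, |f (V i)| / l (V i) with hN
  have hterm : ∀ i, 0 ≤ |f (V i)| / l (V i) := fun i => div_nonneg (abs_nonneg _) (hl0 i)
  have hout : ∀ i, i ∉ S → 0 < N * l (V i) + f (V i) := by
    intro i hi
    have hpos : 0 < l (V i) := lt_of_le_of_ne (hl0 i) (fun h => hi ((hl i).2 h.symm))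
    have h1 : |f (V i)| / l (V i) ≤ ∑ i, |f (V i)| / l (V i) :=
      Finset.single_le_sum (f := fun i => |f (V i)| / l (V i)) (fun j _ => hterm j)
        (Finset.mem_univ i)
    have h2 : (1 + |f (V i)| / l (V i)) * l (V i) ≤ N * l (V i) := by
      apply mul_le_mul_of_nonneg_right _ hpos.le
      rw [hN]
      linarith
    have h3 : (1 + |f (V i)| / l (V i)) * l (V i) = l (V i) + |f (V i)| := by
      rw [add_mul, one_mul, div_mul_cancel₀ _ hpos.ne']
    have h4 := neg_abs_le (f (V i))
    linarith
  have hin : ∀ i ∈ S, N * l (V i) + f (V i) = if i ∈ T then 0 else 1 := by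
    intro i hi
    rw [(hl i).1 hi, mul_zero, zero_add, hf i hi]
  refine ⟨N • l + f, ?_, ?_⟩
  · intro i
    rw [LinearMap.add_apply, LinearMap.smul_apply, smul_eq_mul]
    by_cases hi : i ∈ S
    · rw [hin i hi]
      split_ifs
      · exact le_rfl
      · exact zero_le_one
    · exact (hout i hi).le
  · intro i
    rw [LinearMap.add_apply, LinearMap.smul_apply, smul_eq_mul]
    by_cases hi : i ∈ S
    · rw [hin i hi]
      by_cases hT : i ∈ T
      · simp [hT]
      · simp [hT]
    · constructor
      · intro h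
        exact absurd (hTS h) hi
      · intro h
        exact absurd h (hout i hi).ne'

end H51R3.ES
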